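import Mathlib
import Pool.Agent.H592R5.PcpDefs
import Pool.Agent.H592R6.GapDefs
import Pool.Agent.H592R6.GapMain

/-!
Proof systems with small-depth verifiers that distinguish constraint satisfaction problems of which
at most three quarters of the constraints can be satisfied from satisfiable ones need `2 ^ ((1 - ε) n)` gates, even if they have proofs
for few random instances only.
-/

open SmallDepth DomAC0 Filter

namespace H592R6.GapRes

open Classical in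
/-- The image of a distribution. -/
noncomputable def push {Λ Y : Type} [Fintype Λ] (μ : Λ → ℝ) (x : Λ → Y) (y : Y) : ℝ :=
  ∑ l, if x l = y then μ l else 0

lemma push_sum {Λ Y : Type} [Fintype Λ] [Fintype Y] (μ : Λ → ℝ) (x : Λ → Y) (P : Y → Prop)
    [DecidablePred P] :
    (∑ y, if P y then push μ x y else 0) = ∑ l, if P (x l) then μ l else 0 := by
  classical
  have h1 : ∀ y, (if P y then push μ x y else 0) =
      ∑ l, if x l = y then (if P (x l) then μ l else 0) else 0 := by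
    intro y
    unfold push
    by_cases hy : P y
    · rw [if_pos hy]
      refine Finset.sum_congr rfl fun l _ => ?_
      by_cases hl : x l = y
      · rw [if_pos hl, if_pos hl, if_pos (hl ▸ hy)]
      · rw [if_neg hl, if_neg hl]
    · rw [if_neg hy]
      refine (Finset.sum_eq_zero fun l _ => ?_).symm
      by_cases hl : x l = y
      · rw [if_pos hl, if_neg (hl ▸ hy)]
      · rw [if_neg hl]
  rw [Finset.sum_congr rfl fun y _ => h1 y, Finset.sum_comm]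
  refine Finset.sum_congr rfl fun l _ => ?_
  rw [Finset.sum_ite_eq]
  simp

lemma push_total {Λ Y : Type} [Fintype Λ] [Fintype Y] (μ : Λ → ℝ) (x : Λ → Y) :
    ∑ y, push μ x y = ∑ l, μ l := by
  classical
  have h := push_sum μ x (fun _ => True)
  simpa using h

lemma push_nonneg {Λ Y : Type} [Fintype Λ] (μ : Λ → ℝ) (x : Λ → Y) (h : ∀ l, 0 ≤ μ l) (y : Y) :
    0 ≤ push μ x y := by
  classical
  unfold push
  refine Finset.sum_nonneg fun l _ => ?_
  split_ifs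
  · exact h l
  · exact le_refl _


open Classical in
theorem main :
    (∀ ε : ℝ, 0 < ε → ε < 1 → ∃ C : ℝ, 0 < C ∧ ∀ n d k q t w : ℕ, 2 ≤ n → 1 ≤ d →
      C * (d * Real.log (n + k * (q + 1) + t)) ≤ w → w ≤ n →
      ∃ (M : ℕ) (sc : Fin M → Fin w → Fin n) (μ : (Fin M × (Fin w → Bool) → Bool) → ℝ),
        1 ≤ M ∧ M ≤ n ∧ (∀ y, 0 ≤ μ y) ∧ ∑ y, μ y = 1 ∧
        (∑ y, if ThreeQuarters sc y then 0 else μ y) ≤ (2 : ℝ) ^ (-((1 - ε) * n / 10)) ∧
        ∀ (V : PcpVerifier (Fin M × (Fin w → Bool)) k q) (θ : ℝ) (S : ℕ),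
          V.Bounded d S → (S : ℝ) ≤ 2 ^ ((1 - ε) * n) →
          (∀ y, Satisfiable sc y → ∀ π, V.acc y π ≤ θ) →
          (∑ y, if ∃ π, θ + 1 / 3 ≤ V.acc y π then μ y else 0) ≤ (1 / 2) ^ t) ∧
    (∀ p p' : ℕ, p < p' → ∀ c d : ℕ, ∃ K : ℕ, ∀ᶠ n : ℕ in atTop, ∀ w k q : ℕ,
      w = K * Nat.clog 2 n → k ≤ n ^ c → q ≤ n ^ c →
      ∃ (M : ℕ) (sc : Fin M → Fin w → Fin n), 1 ≤ M ∧ M ≤ n ∧
      ¬ ∃ V : PcpVerifier (Fin M × (Fin w → Bool)) k q, V.Bounded d (2 ^ (p * n / p')) ∧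
        (∀ y, ThreeQuarters sc y → ∃ π, V.acc y π = 1) ∧
        (∀ y, Satisfiable sc y → ∀ π, V.acc y π ≤ 1 / 2)) := by
  have hA : ∀ ε : ℝ, 0 < ε → ε < 1 → ∃ C : ℝ, 0 < C ∧ ∀ n d k q t w : ℕ, 2 ≤ n → 1 ≤ d →
      C * (d * Real.log (n + k * (q + 1) + t)) ≤ w → w ≤ n →
      ∃ (M : ℕ) (sc : Fin M → Fin w → Fin n) (μ : (Fin M × (Fin w → Bool) → Bool) → ℝ),
        1 ≤ M ∧ M ≤ n ∧ (∀ y, 0 ≤ μ y) ∧ ∑ y, μ y = 1 ∧
        (∑ y, if ThreeQuarters sc y then 0 else μ y) ≤ (2 : ℝ) ^ (-((1 - ε) * n / 10)) ∧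
        ∀ (V : PcpVerifier (Fin M × (Fin w → Bool)) k q) (θ : ℝ) (S : ℕ),
          V.Bounded d S → (S : ℝ) ≤ 2 ^ ((1 - ε) * n) →
          (∀ y, Satisfiable sc y → ∀ π, V.acc y π ≤ θ) →
          (∑ y, if ∃ π, θ + 1 / 3 ≤ V.acc y π then μ y else 0) ≤ (1 / 2) ^ t := by
    intro ε hε hε1
    obtain ⟨C, hC, h⟩ := H592R3.MbU.gap_pcp ε hε hε1
    refine ⟨C, hC, ?_⟩
    intro n d k q t w hn hd hw hwn
    obtain ⟨M, hM1, hM2, sc, Λ, hΛ, μ, x, hμ0, hμ1, hgap, hmain⟩ := h n d k q t w hn hd hw hwn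
    refine ⟨M, sc, push μ x, hM1, hM2, push_nonneg μ x hμ0, ?_, ?_, ?_⟩
    · rw [push_total, hμ1]
    · have h1 := push_sum μ x (fun y => ¬ ThreeQuarters sc y)
      calc (∑ y, if ThreeQuarters sc y then 0 else push μ x y) =
          ∑ y, if ¬ ThreeQuarters sc y then push μ x y else 0 := by
            refine Finset.sum_congr rfl fun y _ => ?_
            by_cases hy : ThreeQuarters sc y <;> simp [hy]
        _ = ∑ l, if ¬ ThreeQuarters sc (x l) then μ l else 0 := h1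
        _ = ∑ l, if ThreeQuarters sc (x l) then 0 else μ l := by
            refine Finset.sum_congr rfl fun l _ => ?_
            by_cases hy : ThreeQuarters sc (x l) <;> simp [hy]
        _ ≤ _ := hgap
    · intro V θ S hV hS hno
      rw [push_sum μ x (fun y => ∃ π, θ + 1 / 3 ≤ V.acc y π)]
      exact hmain V θ S hV hS hno
  refine ⟨hA, ?_⟩
  intro p₀ q₀ hpq₀ c d
  obtain ⟨p, q, hpq, hp1, hle⟩ : ∃ p q : ℕ, p < q ∧ 1 ≤ p ∧
      ∀ n : ℕ, p₀ * n / q₀ ≤ p * n / q := by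
    refine ⟨2 * p₀ + 1, 2 * q₀, by omega, by omega, fun n => ?_⟩
    rw [Nat.le_div_iff_mul_le (by omega)]
    have h1 : p₀ * n / q₀ * q₀ ≤ p₀ * n := Nat.div_mul_le_self _ _
    nlinarith
  have hb : (0 : ℝ) < q := by exact_mod_cast (by omega : 0 < q)
  have hpR : (0 : ℝ) < p := by exact_mod_cast hp1
  have hpqR : (p : ℝ) / q < 1 := by rw [div_lt_one hb]; exact_mod_cast hpq
  have hpq0 : (0 : ℝ) < (p : ℝ) / q := by positivity
  obtain ⟨ε, hε⟩ : ∃ ε : ℝ, ε = 1 - (p : ℝ) / q := ⟨_, rfl⟩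
  have hε0 : 0 < ε := by rw [hε]; linarith
  have hε1 : ε < 1 := by rw [hε]; linarith
  obtain ⟨C₀, hC₀, hlow⟩ := hA ε hε0 hε1
  obtain ⟨K, hK⟩ : ∃ K : ℕ, K = ⌈C₀ * (((max d 1 : ℕ) : ℝ) * (2 * c + 4))⌉₊ := ⟨_, rfl⟩
  refine ⟨K, ?_⟩
  have hclog : ∀ n : ℕ, 2 ≤ n → 2 ^ Nat.clog 2 n < 2 * n := by
    intro n hn
    have h5 := Nat.pow_pred_clog_lt_self (b := 2) (by norm_num) (by omega : 1 < n)
    have h6 : Nat.clog 2 n = (Nat.clog 2 n).pred + 1 := by
      have := Nat.clog_pos (b := 2) (by norm_num) (by omega : 2 ≤ n)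
      exact (Nat.succ_pred_eq_of_pos this).symm
    rw [h6, pow_succ]
    omega
  have hwlim : ∀ᶠ n : ℕ in atTop, K * Nat.clog 2 n ≤ n := by
    have h2 := (isLittleO_log_rpow_atTop (r := 1) (by norm_num)).bound
      (c := 1 / (4 * (K : ℝ) + 4)) (by positivity)
    have h3 := tendsto_natCast_atTop_atTop (R := ℝ) |>.eventually h2
    filter_upwards [h3, eventually_ge_atTop (2 * K + 2)] with n hn hn1
    have hn1' : (1 : ℝ) ≤ n := by exact_mod_cast (by omega : 1 ≤ n)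
    have hn2 : 2 * (K : ℝ) + 2 ≤ n := by exact_mod_cast hn1
    rw [Real.norm_of_nonneg (Real.log_nonneg hn1'), Real.rpow_one,
      Real.norm_of_nonneg (by positivity)] at hn
    have h4 : (Nat.clog 2 n : ℝ) ≤ 2 * Real.log n + 1 := by
      have h6 : (2 : ℝ) ^ Nat.clog 2 n ≤ 2 * n := by exact_mod_cast (hclog n (by omega)).le
      have h7 := Real.log_le_log (by positivity) h6
      rw [Real.log_pow, Real.log_mul (by norm_num) (by positivity)] at h7
      have h8 := Real.log_two_gt_d9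
      have h9 : (0 : ℝ) ≤ (Nat.clog 2 n : ℝ) := by positivity
      have h10 := Real.log_nonneg hn1'
      by_contra h11
      rw [not_le] at h11
      nlinarith
    have h10 : (K : ℝ) * (Nat.clog 2 n : ℝ) ≤ n := by
      rw [div_mul_eq_mul_div, one_mul, le_div_iff₀ (by positivity)] at hn
      calc (K : ℝ) * (Nat.clog 2 n : ℝ) ≤ K * (2 * Real.log n + 1) := by gcongr
        _ ≤ n := by
          have h11 := Real.log_nonneg hn1'
          nlinarith
    exact_mod_cast h10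
  have hblim : ∀ᶠ n : ℕ in atTop, 10 < (p : ℝ) / q * n := by
    obtain ⟨N, hN⟩ := exists_nat_gt (10 / ((p : ℝ) / q))
    filter_upwards [eventually_ge_atTop N] with n hn
    have : (N : ℝ) ≤ n := by exact_mod_cast hn
    rw [div_lt_iff₀ hpq0] at hN
    nlinarith
  filter_upwards [hwlim, hblim, eventually_ge_atTop 2] with n h1 h2 h3
  intro w k a hw hk ha
  have hnR : (2 : ℝ) ≤ n := by exact_mod_cast h3
  have hside : C₀ * (((max d 1 : ℕ) : ℝ) * Real.log ((n : ℝ) + k * (a + 1) + (1 : ℕ))) ≤ (w : ℝ) := by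
    have h8 : C₀ * (((max d 1 : ℕ) : ℝ) * (2 * c + 4)) ≤ K := by rw [hK]; exact Nat.le_ceil _
    have h9 : Real.log n ≤ (Nat.clog 2 n : ℝ) := by
      have h10 : (n : ℝ) ≤ 2 ^ (Nat.clog 2 n) := by
        exact_mod_cast Nat.le_pow_clog (by norm_num) n
      calc Real.log n ≤ Real.log (2 ^ (Nat.clog 2 n)) := Real.log_le_log (by linarith) h10
        _ = Nat.clog 2 n * Real.log 2 := Real.log_pow _ _
        _ ≤ Nat.clog 2 n * 1 := by
            gcongr
            linarith [Real.log_two_lt_d9]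
        _ = Nat.clog 2 n := mul_one _
    have h12 : (0 : ℝ) ≤ Real.log n := Real.log_nonneg (by linarith)
    have h13 : (n : ℝ) + k * (a + 1) + (1 : ℕ) ≤ (n : ℝ) ^ (2 * c + 4) := by
      have hkR : (k : ℝ) ≤ (n : ℝ) ^ c := by exact_mod_cast hk
      have haR : (a : ℝ) ≤ (n : ℝ) ^ c := by exact_mod_cast ha
      have e1 : (1 : ℝ) ≤ (n : ℝ) ^ c := one_le_pow₀ (by linarith)
      have e2 : (k : ℝ) * (a + 1) ≤ (n : ℝ) ^ c * ((n : ℝ) ^ c + (n : ℝ) ^ c) := by gcongr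
      have e3 : (n : ℝ) ^ (2 * c + 4) = ((n : ℝ) ^ c * (n : ℝ) ^ c) * (n * n * n * n) := by
        rw [pow_add, two_mul, pow_add]; ring
      have e4 : (1 : ℝ) ≤ (n : ℝ) ^ c * (n : ℝ) ^ c := by nlinarith
      have e5 : (4 : ℝ) * n ≤ n * n * n := by
        nlinarith [mul_nonneg (by linarith : (0:ℝ) ≤ n) (sq_nonneg ((n : ℝ) - 2))]
      have e6 : (8 : ℝ) * n ≤ n * n * n * n := by nlinarith
      rw [e3]
      push_cast
      nlinarith
    have h14 : Real.log ((n : ℝ) + k * (a + 1) + (1 : ℕ)) ≤ (2 * c + 4) * Real.log n := by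
      have h15 : (0 : ℝ) < (n : ℝ) + k * (a + 1) + (1 : ℕ) := by
        have : (0 : ℝ) ≤ (k : ℝ) * (a + 1) := by positivity
        push_cast
        linarith
      refine (Real.log_le_log h15 h13).trans (le_of_eq ?_)
      rw [Real.log_pow]
      push_cast
      ring
    calc C₀ * (((max d 1 : ℕ) : ℝ) * Real.log ((n : ℝ) + k * (a + 1) + (1 : ℕ))) ≤
        C₀ * (((max d 1 : ℕ) : ℝ) * ((2 * c + 4) * (Nat.clog 2 n : ℝ))) := by
          gcongr
          exact h14.trans (by gcongr)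
      _ = C₀ * (((max d 1 : ℕ) : ℝ) * (2 * c + 4)) * (Nat.clog 2 n : ℝ) := by ring
      _ ≤ K * (Nat.clog 2 n : ℝ) := by gcongr
      _ = (w : ℝ) := by rw [hw]; push_cast; ring
  obtain ⟨M, sc, μ, hM1, hM2, hμ0, hμ1, hgap, hmain⟩ := hlow n (max d 1) k a 1 w h3
    (le_max_right _ _) hside (hw ▸ h1)
  refine ⟨M, sc, hM1, hM2, ?_⟩
  rintro ⟨V, hV, hyes, hno⟩
  have hfl : ((2 ^ (p₀ * n / q₀) : ℕ) : ℝ) ≤ 2 ^ ((1 - ε) * (n : ℝ)) := by
    have h9 : (1 - ε) * (n : ℝ) = (p : ℝ) / q * n := by rw [hε]; ring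
    rw [h9]
    push_cast
    rw [← Real.rpow_natCast]
    apply Real.rpow_le_rpow_of_exponent_le (by norm_num)
    calc (((p₀ * n / q₀ : ℕ) : ℕ) : ℝ) ≤ ((p * n / q : ℕ) : ℝ) := by exact_mod_cast hle n
      _ ≤ ((p * n : ℕ) : ℝ) / q := Nat.cast_div_le
      _ = (p : ℝ) / q * n := by push_cast; ring
  have h4 := hmain V (1 / 2) _
    (fun ω r => ⟨(hV ω r).1, (hV ω r).2.1.trans (le_max_left _ _),
      fun t i => ((hV ω r).2.2 t i).trans (le_max_left _ _)⟩) hfl hno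
  have h5 : (1 : ℝ) ≤ (∑ y, if ThreeQuarters sc y then 0 else μ y) +
      ∑ y, if ∃ π, (1 : ℝ) / 2 + 1 / 3 ≤ V.acc y π then μ y else 0 := by
    refine hμ1.symm.trans_le ?_
    rw [← Finset.sum_add_distrib]
    refine Finset.sum_le_sum fun y _ => ?_
    by_cases hy : ThreeQuarters sc y
    · have h6 : ∃ π, (1 : ℝ) / 2 + 1 / 3 ≤ V.acc y π := by
        obtain ⟨π, hπ⟩ := hyes y hy
        exact ⟨π, by rw [hπ]; norm_num⟩
      rw [if_pos hy, if_pos h6, zero_add]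
    · rw [if_neg hy]
      have h6 : 0 ≤ (if ∃ π, (1 : ℝ) / 2 + 1 / 3 ≤ V.acc y π then μ y else 0) := by
        split_ifs
        · exact hμ0 y
        · exact le_refl _
      linarith
  have h6 : (2 : ℝ) ^ (-((1 - ε) * n / 10)) < 2 ^ (-1 : ℝ) := by
    apply Real.rpow_lt_rpow_of_exponent_lt (by norm_num)
    have h9 : (1 - ε) * (n : ℝ) = (p : ℝ) / q * n := by rw [hε]; ring
    rw [h9]
    linarith
  have h7 : (2 : ℝ) ^ (-1 : ℝ) = 1 / 2 := by
    rw [Real.rpow_neg (by norm_num), Real.rpow_one]; norm_num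
  rw [h7] at h6
  rw [pow_one] at h4
  linarith

end H592R6.GapRes
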