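import Mathlib
import Pool.Agent.H592R3.AccDefs
import Pool.Agent.H592R5.PrivDefs
import Pool.Agent.H592R7.AvgSat

/-!
Sound proof systems refute few random formulas.
-/

set_option linter.unusedSectionVars false

namespace H592R3.MbU

open Finset DomAC0 H568R2 SmallDepth H592R3.Mb2 H592R3.Mb3

lemma push_if {Λ Y : Type} [Fintype Λ] [Fintype Y] (μ : Λ → ℝ) (x : Λ → Y) (P : Y → Prop)
    [DecidablePred P] :
    (∑ y, if P y then push μ x y else 0) = ∑ l, if P (x l) then μ l else 0 := by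
  have h := push_sum μ x (fun y => if P y then (1 : ℝ) else 0)
  simpa [mul_ite] using h

open Classical in
/-- Sound private-coin interactive proofs refute few random formulas. -/
theorem rand_cnf (ε : ℝ) (hε : 0 < ε) : ∃ C : ℝ, 0 < C ∧
    ∀ n d k a b t w M : ℕ, 2 ≤ n → 1 ≤ d →
    C * (d * Real.log (n + k * (a + b) + t)) ≤ w → w ≤ n → n * 2 ^ w ≤ M →
    ∃ ν : ((Fin M × Fin n × Bool) → Bool) → ℝ,
    (∀ x, 0 ≤ ν x) ∧ ∑ x, ν x = 1 ∧ (∀ x, ν x ≠ 0 → WidthLe x w) ∧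
    (∑ x, if HasModel x then ν x else 0) ≤ (2 : ℝ) ^ (-((1 - ε) * n / 2)) ∧
    ∀ (V : PrivateProof (Fin M × Fin n × Bool) k a b) (θ : ℝ) (S : ℕ),
      V.Bounded d S → (S : ℝ) ≤ 2 ^ ((1 - ε) * n) →
      (∀ x, WidthLe x w → HasModel x → ∀ P, V.acc x P ≤ θ) →
      (∑ x, if ∃ P, θ + 1 / 3 ≤ V.acc x P then ν x else 0) ≤ (1 / 2) ^ t := by
  obtain ⟨Q, hQ6, C, hC, hpar⟩ := rare_param ε hε
  refine ⟨C, hC, ?_⟩
  intro n d k a b t w M hn hd hw hwn hM
  obtain ⟨D, β, m', s, hD, hβ, hm', hBw, hQn, hbig, hexp, hmain⟩ :=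
    hpar n d k a b t w hn hd hw hwn
  obtain ⟨σ, hσ, hσw, hσs⟩ := enc Q D β m' n w M hQ6 hD hβ hm' hn hBw hQn hM s
  obtain ⟨p, hp⟩ : ∃ p : ℝ, p = (1 / ((2 : ℝ) ^ (D * β)) ^ 3) / 2 := ⟨_, rfl⟩
  have hp0 : 0 ≤ p := by rw [hp]; positivity
  have hp1 : p ≤ 1 := by
    have h1 : (1 : ℝ) ≤ ((2 : ℝ) ^ (D * β)) ^ 3 := one_le_pow₀ (one_le_pow₀ (by norm_num))
    have h2 : 1 / ((2 : ℝ) ^ (D * β)) ^ 3 ≤ 1 := by
      rw [div_le_one (by positivity)]; exact h1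
    rw [hp]
    linarith
  rw [← hp] at hmain
  have hμ : ∀ X : (Fin (Q * m') × (Fin (2 * Q ^ 2 + 14 + 1) → Fin (2 ^ (2 * D * β)))) → Bool,
      0 ≤ ∏ i, vp p (X i) := fun X => Finset.prod_nonneg fun i _ => vp_nonneg hp0 hp1 _
  have hμ1 : ∑ X : (Fin (Q * m') × (Fin (2 * Q ^ 2 + 14 + 1) → Fin (2 ^ (2 * D * β)))) → Bool,
      ∏ i, vp p (X i) = 1 := by
    have := Ex_const (I := Fin (Q * m') × (Fin (2 * Q ^ 2 + 14 + 1) → Fin (2 ^ (2 * D * β))))
      (vp_sum p) (1 : ℝ)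
    unfold Ex at this
    simpa using this
  refine ⟨push (fun X => ∏ i, vp p (X i)) σ, push_nonneg _ _ hμ, by rw [push_total, hμ1],
    ?_, ?_, ?_⟩
  · intro u hu
    obtain ⟨X, rfl⟩ := push_ne _ _ _ hu
    exact hσw X
  · rw [push_if]
    have h1 := sat_prob (N := 2 ^ (2 * D * β)) s hp0 hp1
    have h2 := sat_arith Q D β m' n ε hexp
    rw [← hp] at h2
    refine le_trans (le_of_eq ?_) (h1.trans h2)
    unfold Ex
    refine Finset.sum_congr rfl fun X _ => ?_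
    beta_reduce
    by_cases hX : Sat s X
    · rw [if_pos hX, if_pos (show HasModel (σ X) from (hσs X).2 hX), mul_one]
    · rw [if_neg hX, if_neg (show ¬ HasModel (σ X) from fun h => hX ((hσs X).1 h)), mul_zero]
  · intro V θ S hV hS hno
    have e := push_sum (fun X => ∏ i, vp p (X i)) σ
      (fun x => if ∃ P, θ + 1 / 3 ≤ V.acc x P then (1 : ℝ) else 0)
    refine le_trans (le_of_eq ((Finset.sum_congr rfl fun x _ => ?_).trans e)) ?_
    · beta_reduce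
      by_cases hX : ∃ P, θ + 1 / 3 ≤ V.acc x P
      · rw [if_pos hX, if_pos hX, mul_one]
      · rw [if_neg hX, if_neg hX, mul_zero]
    have h1 := hmain _ σ hσ V Set.univ θ S hV hS
      (fun X α P _ => hno _ (hσw _) ((hσs _).2 (plant_sat s _ _)) P)
    refine le_trans (le_of_eq ?_) h1
    unfold Ex
    refine Finset.sum_congr rfl fun X _ => ?_
    beta_reduce
    by_cases hX : ∃ P, θ + 1 / 3 ≤ V.acc (σ X) P
    · have hX' : ∃ P ∈ (Set.univ : Set (PrivateProof.Strategy k a b)),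
          θ + 1 / 3 ≤ V.acc (σ X) P := by
        obtain ⟨P, hP⟩ := hX
        exact ⟨P, Set.mem_univ _, hP⟩
      rw [if_pos hX, if_pos hX']
    · have hX' : ¬ ∃ P ∈ (Set.univ : Set (PrivateProof.Strategy k a b)),
          θ + 1 / 3 ≤ V.acc (σ X) P := by
        rintro ⟨P, _, hP⟩
        exact hX ⟨P, hP⟩
      rw [if_neg hX, if_neg hX']

end H592R3.MbU
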