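import Mathlib
import Pool.Agent.H592R9.SumDefs

/-!
Complete graphs with random integer weights, with and without a planted triangle of weight zero.
-/

namespace SmallDepth

/-- The edges of the complete graph on `n` vertices: pairs of vertices, the smaller one first. -/
abbrev Edge (n : ℕ) : Type := {p : Fin n × Fin n // p.1 < p.2}

/-- The edge between two different vertices. -/
def edgeOf {n : ℕ} (i j : Fin n) (h : i ≠ j) : Edge n :=
  if h' : i < j then ⟨(i, j), h'⟩ else ⟨(j, i), lt_of_le_of_ne (not_lt.1 h') h.symm⟩

/-- The symmetric matrix of the weights, integers between `-r` and `r`, with the diagonal `0`. -/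
def weightMatrix {n r : ℕ} (x : Edge n → Fin (2 * r + 1)) : Fin n → Fin n → ℤ :=
  fun i j => if h : i ≠ j then centered r (x (edgeOf i j h)) else 0

/-- Some three different vertices form a triangle of weight `0`. -/
def HasZeroTriangle {n : ℕ} (w : Fin n → Fin n → ℤ) : Prop :=
  ∃ i j k : Fin n, i ≠ j ∧ j ≠ k ∧ i ≠ k ∧ w i j + w j k + w i k = 0

lemma fin3_ne_succ : ∀ m : Fin 3, m ≠ m + 1 := by
  decide

/-- The edges of the triangle with the vertices `c 0`, `c 1`, `c 2`: edge number `m` joins
`c m` and `c (m + 1)`, where `2 + 1` is `0`. -/
def triangleEdge {n : ℕ} (c : Fin 3 ↪ Fin n) (m : Fin 3) : Edge n :=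
  edgeOf (c m) (c (m + 1)) (fun h => fin3_ne_succ m (c.injective h))

/-- The weights `x` in which those of the edges of the triangle `c` are replaced by `z`. -/
noncomputable def plantTriangle {n r : ℕ} (c : Fin 3 ↪ Fin n) (z : ZeroTriple r)
    (x : Edge n → Fin (2 * r + 1)) : Edge n → Fin (2 * r + 1) :=
  Function.extend (triangleEdge c) z.1 x

open Classical in
/-- The probability of the event `f` for the weight matrix of a complete graph on `n` vertices
with independent and uniformly random integer weights between `-r` and `r`. -/
noncomputable def uniformTriPr (n r : ℕ) (f : (Fin n → Fin n → ℤ) → Prop) : ℝ :=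
  ((Finset.univ.filter (fun x : Edge n → Fin (2 * r + 1) => f (weightMatrix x))).card : ℝ) /
    Fintype.card (Edge n → Fin (2 * r + 1))

open Classical in
/-- The probability of the event `f` for such a matrix in which the weights of a uniformly random
triangle are replaced by a uniformly random triple with sum `0`. -/
noncomputable def plantedTriPr (n r : ℕ) (f : (Fin n → Fin n → ℤ) → Prop) : ℝ :=
  ((Finset.univ.filter (fun y : (Fin 3 ↪ Fin n) × ZeroTriple r × (Edge n → Fin (2 * r + 1)) =>
    f (weightMatrix (plantTriangle y.1 y.2.1 y.2.2)))).card : ℝ) /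
    Fintype.card ((Fin 3 ↪ Fin n) × ZeroTriple r × (Edge n → Fin (2 * r + 1)))

end SmallDepth
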