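import Mathlib
import Pool.Agent.H592R9.SumCount
import Pool.Agent.H592R9.SumValid
import Pool.Agent.H592R10.TriDefs

/-!
Counting triangles through given edges.
-/

set_option linter.unusedSectionVars false

namespace H592R3.Hp

open Finset SmallDepth

lemma edgeOf_symm {n : ℕ} (i j : Fin n) (h : i ≠ j) : edgeOf i j h = edgeOf j i h.symm := by
  unfold edgeOf
  by_cases h1 : i < j
  · rw [dif_pos h1, dif_neg (not_lt.2 h1.le)]
  · have h2 : j < i := lt_of_le_of_ne (not_lt.1 h1) h.symm
    rw [dif_neg h1, dif_pos h2]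

lemma edgeOf_inj {n : ℕ} {i j i' j' : Fin n} {h : i ≠ j} {h' : i' ≠ j'}
    (e : edgeOf i j h = edgeOf i' j' h') : (i = i' ∧ j = j') ∨ (i = j' ∧ j = i') := by
  unfold edgeOf at e
  split_ifs at e <;> simp only [Subtype.mk.injEq, Prod.mk.injEq] at e <;> omega

lemma edgeOf_order {n : ℕ} {i j i' j' : Fin n} {h : i ≠ j} {h' : i' ≠ j'}
    (e : edgeOf i j h = edgeOf i' j' h') (ho : decide (i < j) = decide (i' < j')) :
    i = i' ∧ j = j' := by
  rcases edgeOf_inj e with h1 | ⟨h1, h2⟩
  · exact h1
  · exfalso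
    subst h1 h2
    have h3 : (i < j) ↔ (j < i) := by simpa using ho
    omega

lemma fin3_cyc : ∀ m m' : Fin 3, m = m' + 1 → m + 1 = m' → m = m' := by
  decide

lemma triangleEdge_inj {n : ℕ} (c : Fin 3 ↪ Fin n) : Function.Injective (triangleEdge c) := by
  intro m m' h
  unfold triangleEdge at h
  rcases edgeOf_inj h with h1 | ⟨h1, h2⟩
  · exact c.injective h1.1
  · exact fin3_cyc m m' (c.injective h1) (c.injective h2)

lemma third_add : ∀ m k : Fin 3, k = m ∨ k = m + 1 ∨ k = m + 2 := by
  decide

lemma pair_cover : ∀ m m' : Fin 3, m ≠ m' → ∀ k : Fin 3, k = m ∨ k = m + 1 ∨ k = m' ∨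
    k = m' + 1 := by
  decide

open Classical in
lemma tri_one {n : ℕ} (m : Fin 3) (f : Edge n) :
    (univ.filter (fun c : Fin 3 ↪ Fin n => triangleEdge c m = f)).card ≤ 2 * n := by
  have : (univ.filter (fun c : Fin 3 ↪ Fin n => triangleEdge c m = f)).card ≤
      (univ : Finset (Bool × Fin n)).card := by
    apply Finset.card_le_card_of_injOn (fun c => (decide (c m < c (m + 1)), c (m + 2)))
    · intro p _
      exact Finset.mem_univ _
    · intro c hc c' hc' h
      have h1 := (Finset.mem_filter.1 hc).2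
      have h2 := (Finset.mem_filter.1 hc').2
      simp only [Prod.mk.injEq] at h
      have h3 := edgeOf_order (h1.trans h2.symm) h.1
      apply Function.Embedding.ext
      intro k
      rcases third_add m k with rfl | rfl | rfl
      · exact h3.1
      · exact h3.2
      · exact h.2
  rwa [Finset.card_univ, Fintype.card_prod, Fintype.card_fin, Fintype.card_bool] at this

open Classical in
lemma tri_two {n : ℕ} {m m' : Fin 3} (hm : m ≠ m') (f f' : Edge n) :
    (univ.filter (fun c : Fin 3 ↪ Fin n => triangleEdge c m = f ∧ triangleEdge c m' = f')).card ≤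
      4 := by
  have : (univ.filter (fun c : Fin 3 ↪ Fin n => triangleEdge c m = f ∧
      triangleEdge c m' = f')).card ≤ (univ : Finset (Bool × Bool)).card := by
    apply Finset.card_le_card_of_injOn
      (fun c => (decide (c m < c (m + 1)), decide (c m' < c (m' + 1))))
    · intro p _
      exact Finset.mem_univ _
    · intro c hc c' hc' h
      have h1 := (Finset.mem_filter.1 hc).2
      have h2 := (Finset.mem_filter.1 hc').2
      simp only [Prod.mk.injEq] at h
      have h3 := edgeOf_order (h1.1.trans h2.1.symm) h.1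
      have h4 := edgeOf_order (h1.2.trans h2.2.symm) h.2
      apply Function.Embedding.ext
      intro k
      rcases pair_cover m m' hm k with rfl | rfl | rfl | rfl
      · exact h3.1
      · exact h3.2
      · exact h4.1
      · exact h4.2
  have e : (univ : Finset (Bool × Bool)).card = 4 := by decide
  rwa [e] at this

lemma edge_card (n : ℕ) : Fintype.card (Edge n) ≤ n ^ 2 := by
  have h := Fintype.card_subtype_le (fun p : Fin n × Fin n => p.1 < p.2)
  rwa [Fintype.card_prod, Fintype.card_fin, ← pow_two] at h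

lemma weight_apply {n r : ℕ} (x : Edge n → Fin (2 * r + 1)) {i j : Fin n} (h : i ≠ j) :
    weightMatrix x i j = centered r (x (edgeOf i j h)) := by
  unfold weightMatrix
  rw [dif_pos h]

lemma plantTri_apply {n r : ℕ} (c : Fin 3 ↪ Fin n) (z : ZeroTriple r)
    (x : Edge n → Fin (2 * r + 1)) (m : Fin 3) :
    plantTriangle c z x (triangleEdge c m) = z.1 m := by
  unfold plantTriangle
  exact (triangleEdge_inj c).extend_apply _ _ _

lemma plantTri_zero {n r : ℕ} (c : Fin 3 ↪ Fin n) (z : ZeroTriple r)
    (x : Edge n → Fin (2 * r + 1)) : HasZeroTriangle (weightMatrix (plantTriangle c z x)) := by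
  have h01 : c 0 ≠ c 1 := fun h => absurd (c.injective h) (by decide)
  have h12 : c 1 ≠ c 2 := fun h => absurd (c.injective h) (by decide)
  have h02 : c 0 ≠ c 2 := fun h => absurd (c.injective h) (by decide)
  refine ⟨c 0, c 1, c 2, h01, h12, h02, ?_⟩
  rw [weight_apply _ h01, weight_apply _ h12, weight_apply _ h02]
  have e0 : edgeOf (c 0) (c 1) h01 = triangleEdge c 0 := rfl
  have e1 : edgeOf (c 1) (c 2) h12 = triangleEdge c 1 := rfl
  have e2 : edgeOf (c 0) (c 2) h02 = triangleEdge c 2 := by
    rw [edgeOf_symm]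
    rfl
  rw [e0, e1, e2, plantTri_apply, plantTri_apply, plantTri_apply]
  exact z.2

lemma one_coord' {F : Type} [Fintype F] [DecidableEq F] {R : ℕ} (i : F)
    (P : (F → Fin R) → Prop)
    (hP : ∀ x x', P x → P x' → (∀ l, l ≠ i → x l = x' l) → x = x') :
    cn P * R ≤ Fintype.card (F → Fin R) := by
  classical
  have h := cn_le_inj (α := (F → Fin R) × Fin R) (β := F → Fin R) (fun p => P p.1)
    (fun p => Function.update p.1 i p.2) (by
    rintro ⟨x, v⟩ ⟨x', v'⟩ hx hx' h
    simp only at h hx hx'
    have h1 : v = v' := by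
      have := congrFun h i
      simpa using this
    have h2 : x = x' := by
      apply hP x x' hx hx'
      intro l hl
      have := congrFun h l
      rwa [Function.update_of_ne hl, Function.update_of_ne hl] at this
    rw [h1, h2])
  have h2 : cn (fun p : (F → Fin R) × Fin R => P p.1) = cn P * R := by
    unfold cn
    have h3 : cs (fun p : (F → Fin R) × Fin R => P p.1) =
        (cs P) ×ˢ (univ : Finset (Fin R)) := by
      ext ⟨x, v⟩
      simp [mem_cs]
    rw [h3, Finset.card_product, Finset.card_univ (α := Fin R), Fintype.card_fin]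
  rwa [h2] at h

lemma bad_triangle (n r N : ℕ) (hN : N = Fintype.card (Edge n → Fin (2 * r + 1))) :
    cn (fun x : Edge n → Fin (2 * r + 1) => ¬ ¬ HasZeroTriangle (weightMatrix x)) *
      (2 * r + 1) ≤ n ^ 3 * N := by
  classical
  have h2 := union_mul (α := Edge n → Fin (2 * r + 1)) (ι := Fin n × Fin n × Fin n)
    (fun t x => (t.1 ≠ t.2.1 ∧ t.2.1 ≠ t.2.2 ∧ t.1 ≠ t.2.2) ∧
      weightMatrix x t.1 t.2.1 + weightMatrix x t.2.1 t.2.2 + weightMatrix x t.1 t.2.2 = 0)
      (2 * r + 1) N
    (by
      rintro ⟨i, j, k⟩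
      by_cases hd : i ≠ j ∧ j ≠ k ∧ i ≠ k
      · obtain ⟨hij, hjk, hik⟩ := hd
        rw [hN]
        apply one_coord' (edgeOf i j hij)
        rintro x x' ⟨_, h2⟩ ⟨_, h3⟩ h
        simp only at h2 h3
        rw [weight_apply _ hij, weight_apply _ hjk, weight_apply _ hik] at h2 h3
        have e1 : x (edgeOf j k hjk) = x' (edgeOf j k hjk) := by
          apply h
          intro e
          rcases edgeOf_inj e with ⟨h4, _⟩ | ⟨_, h4⟩
          · exact hij h4.symm
          · exact hik h4.symm
        have e2 : x (edgeOf i k hik) = x' (edgeOf i k hik) := by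
          apply h
          intro e
          rcases edgeOf_inj e with ⟨_, h4⟩ | ⟨h4, _⟩
          · exact hjk h4.symm
          · exact hij h4
        funext l
        by_cases hl : l = edgeOf i j hij
        · rw [hl]
          apply centered_inj r
          rw [e1, e2] at h2
          linarith
        · exact h l hl
      · have : cn (fun x : Edge n → Fin (2 * r + 1) => (i ≠ j ∧ j ≠ k ∧ i ≠ k) ∧
            weightMatrix x i j + weightMatrix x j k + weightMatrix x i k = 0) = 0 := by
          apply cn_zero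
          rintro x ⟨h, _⟩
          exact hd h
        simp only
        rw [this]
        simp)
  rw [Fintype.card_prod, Fintype.card_prod, Fintype.card_fin] at h2
  refine (Nat.mul_le_mul_right _ (cn_mono ?_)).trans (h2.trans (le_of_eq (by ring)))
  intro x hx
  obtain ⟨i, j, k, h1, h3, h4, h5⟩ := not_not.1 hx
  exact ⟨(i, j, k), ⟨h1, h3, h4⟩, h5⟩

lemma uniformTriPr_eq (n r : ℕ) (f : (Fin n → Fin n → ℤ) → Prop) : uniformTriPr n r f =
    (cn (fun x : Edge n → Fin (2 * r + 1) => f (weightMatrix x)) : ℝ) /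
      Fintype.card (Edge n → Fin (2 * r + 1)) := rfl

lemma plantedTriPr_eq (n r : ℕ) (f : (Fin n → Fin n → ℤ) → Prop) : plantedTriPr n r f =
    (cn (fun y : (Fin 3 ↪ Fin n) × ZeroTriple r × (Edge n → Fin (2 * r + 1)) =>
      f (weightMatrix (plantTriangle y.1 y.2.1 y.2.2))) : ℝ) /
      Fintype.card ((Fin 3 ↪ Fin n) × ZeroTriple r × (Edge n → Fin (2 * r + 1))) := rfl

theorem tri_valid_prob (n : ℕ) (hn : 3 ≤ n) :
    1 - 1 / (n : ℝ) ≤ uniformTriPr n (n ^ 4) (fun w => ¬ HasZeroTriangle w) ∧
    plantedTriPr n (n ^ 4) (fun w => HasZeroTriangle w) = 1 := by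
  obtain ⟨r, hr⟩ : ∃ r, r = n ^ 4 := ⟨_, rfl⟩
  rw [← hr]
  constructor
  · rw [uniformTriPr_eq]
    have h1 := bad_triangle n r _ rfl
    have h2 := cn_not (fun x : Edge n → Fin (2 * r + 1) => ¬ HasZeroTriangle (weightMatrix x))
    have h3 : 0 < Fintype.card (Edge n → Fin (2 * r + 1)) := Fintype.card_pos
    apply prob_ge n hn h3 h2
    rw [← hr]
    refine h1.trans ?_
    apply Nat.mul_le_mul_right
    omega
  · rw [plantedTriPr_eq]
    have e4 : 0 < Fintype.card (Edge n → Fin (2 * r + 1)) := Fintype.card_pos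
    have e1 := emb_card hn
    have e2 := zt_card r
    have e3 : 0 < n ^ 3 := by positivity
    have e5 : 0 < (2 * r + 1) * (2 * r + 1) := by positivity
    have e6 : 0 < Fintype.card (Fin 3 ↪ Fin n) := by omega
    have e7 : 0 < Fintype.card (ZeroTriple r) := by omega
    have hcard : Fintype.card ((Fin 3 ↪ Fin n) × ZeroTriple r × (Edge n → Fin (2 * r + 1))) =
        Fintype.card (Fin 3 ↪ Fin n) * (Fintype.card (ZeroTriple r) *
          Fintype.card (Edge n → Fin (2 * r + 1))) := by
      rw [Fintype.card_prod, Fintype.card_prod]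
    have h0 : 0 < Fintype.card ((Fin 3 ↪ Fin n) × ZeroTriple r ×
        (Edge n → Fin (2 * r + 1))) := by
      rw [hcard]
      exact Nat.mul_pos e6 (Nat.mul_pos e7 e4)
    have h1 : cn (fun y : (Fin 3 ↪ Fin n) × ZeroTriple r × (Edge n → Fin (2 * r + 1)) =>
        HasZeroTriangle (weightMatrix (plantTriangle y.1 y.2.1 y.2.2))) =
        Fintype.card ((Fin 3 ↪ Fin n) × ZeroTriple r × (Edge n → Fin (2 * r + 1))) := by
      have h2 := cn_not (fun y : (Fin 3 ↪ Fin n) × ZeroTriple r ×
        (Edge n → Fin (2 * r + 1)) =>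
        HasZeroTriangle (weightMatrix (plantTriangle y.1 y.2.1 y.2.2)))
      have h3 : cn (fun y : (Fin 3 ↪ Fin n) × ZeroTriple r × (Edge n → Fin (2 * r + 1)) =>
        ¬ HasZeroTriangle (weightMatrix (plantTriangle y.1 y.2.1 y.2.2))) = 0 := by
        apply cn_zero
        intro y hy
        exact hy (plantTri_zero _ _ _)
      omega
    rw [h1]
    have h0' : (Fintype.card ((Fin 3 ↪ Fin n) × ZeroTriple r ×
        (Edge n → Fin (2 * r + 1))) : ℝ) ≠ 0 := by
      exact_mod_cast h0.ne'
    exact div_self h0'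

end H592R3.Hp
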