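import Mathlib
import Pool.Agent.H592R10.TriCount
import Pool.Agent.H592R9.SumAvg

/-!
The average-case lower bound for Exact Triangle.
-/

set_option linter.unusedSectionVars false

namespace H592R3.Hp

open Finset DomAC0 SmallDepth

open Classical in
theorem tri_avg (ε : ℝ) (hε : 0 < ε) (hε1 : ε ≤ 1) : ∃ C : ℝ, 0 < C ∧
    ∀ n d r : ℕ, 3 ≤ n → 1 ≤ d → C * (d * Real.log (Real.log n + 2)) ≤ Real.log n →
      2 * r + 1 ≤ n ^ 5 →
    ∀ (J : Type) [Fintype J] (enc : (Fin n → Fin n → ℤ) → J → Bool), Fintype.card J ≤ n ^ 4 →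
      (∀ j, ∃ i k, ∀ w w' : Fin n → Fin n → ℤ, w i k = w' i k → w k i = w' k i →
        enc w j = enc w' j) →
    ∀ K : Circuit J, K.depth ≤ d → (K.size : ℝ) ≤ (n : ℝ) ^ (3 - ε) →
      |uniformTriPr n r (fun w => K.eval (enc w) = true) -
        plantedTriPr n r (fun w => K.eval (enc w) = true)| ≤ (n : ℝ) ^ (-(ε / 2)) := by
  obtain ⟨C, hC, h⟩ := hidden_triple ε hε hε1
  refine ⟨C, hC, ?_⟩
  intro n d r hn hd hCd hr J _ enc hJ henc K hK1 hK2
  have hnR : (3 : ℝ) ≤ n := by exact_mod_cast hn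
  have hn0 : (0 : ℝ) < n := by linarith
  have : NeZero (2 * r + 1) := ⟨by omega⟩
  obtain ⟨N, hN⟩ : ∃ N : ℝ, N = (Fintype.card (Edge n → Fin (2 * r + 1)) : ℝ) := ⟨_, rfl⟩
  obtain ⟨T, hT⟩ : ∃ T : ℝ, T = (Fintype.card ((Fin 3 ↪ Fin n) × ZeroTriple r) : ℝ) := ⟨_, rfl⟩
  have hN0 : 0 < N := by
    rw [hN]
    have : 0 < Fintype.card (Edge n → Fin (2 * r + 1)) := Fintype.card_pos
    exact_mod_cast this
  have c1 := emb_card hn
  have c2 := zt_card r
  have hTb : (n : ℝ) ^ 3 * ((2 * r + 1 : ℕ) : ℝ) ^ 2 ≤ 9 * T := by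
    have h1 : n ^ 3 * ((2 * r + 1) * (2 * r + 1)) ≤
        9 * (Fintype.card (Fin 3 ↪ Fin n) * Fintype.card (ZeroTriple r)) := by
      have h2 := Nat.mul_le_mul c1 c2
      nlinarith
    rw [hT, Fintype.card_prod]
    have h3 : ((n ^ 3 * ((2 * r + 1) * (2 * r + 1)) : ℕ) : ℝ) ≤
        ((9 * (Fintype.card (Fin 3 ↪ Fin n) * Fintype.card (ZeroTriple r)) : ℕ) : ℝ) := by
      exact_mod_cast h1
    push_cast at h3 ⊢
    linarith
  have hT0 : 0 < T := by
    have : 0 < (n : ℝ) ^ 3 * ((2 * r + 1 : ℕ) : ℝ) ^ 2 := by positivity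
    linarith
  have hjunta : ∀ j, ∃ f : Edge n, ∀ x x' : Edge n → Fin (2 * r + 1), x f = x' f →
      enc (weightMatrix x) j = enc (weightMatrix x') j := by
    intro j
    obtain ⟨i, k, hik⟩ := henc j
    by_cases hd' : i = k
    · subst hd'
      refine ⟨⟨(⟨0, by omega⟩, ⟨1, by omega⟩), by simp⟩, fun x x' _ => ?_⟩
      apply hik <;> simp [weightMatrix]
    · refine ⟨edgeOf i k hd', fun x x' hx => ?_⟩
      apply hik
      · rw [weight_apply _ hd', weight_apply _ hd', hx]
      · rw [weight_apply _ (Ne.symm hd'), weight_apply _ (Ne.symm hd'),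
          ← edgeOf_symm i k hd', hx]
  have hmain := h n d (by omega) hd hCd (Edge n) (Fin 3 ↪ Fin n) (ZeroTriple r) J (2 * r + 1)
    triangleEdge triangleEdge_inj (fun z => z.1) (2 * n) 4 hJ (edge_card n) hr
    (fun m f => by
      have := tri_one m f
      convert this) (fun m m' f f' hm => by
      have := tri_two hm f f'
      convert this) (fun m v => by
      have := zt_one (r := r) m v
      convert this) (fun m m' v v' hm => by
      have := zt_two (r := r) hm v v'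
      convert this) 3 (by norm_num) (by
      rw [← hT]
      have : (n : ℝ) ^ (3 : ℝ) = (n : ℝ) ^ 3 := by norm_cast
      rw [this]
      have e : (n : ℝ) ^ 3 * ((4 : ℕ) : ℝ) * ((2 * r + 1 : ℕ) : ℝ) ^ 2 =
        4 * ((n : ℝ) ^ 3 * ((2 * r + 1 : ℕ) : ℝ) ^ 2) := by push_cast; ring
      rw [e]
      linarith) (by
      rw [← hT]
      have e : (n : ℝ) * ((2 * n : ℕ) : ℝ) * ((2 * r + 1 : ℕ) : ℝ) ^ 2 =
        2 * ((n : ℝ) ^ 2 * ((2 * r + 1 : ℕ) : ℝ) ^ 2) := by push_cast; ring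
      rw [e]
      have e2 : (n : ℝ) ^ 2 * ((2 * r + 1 : ℕ) : ℝ) ^ 2 ≤
          (n : ℝ) ^ 3 * ((2 * r + 1 : ℕ) : ℝ) ^ 2 := by
        apply mul_le_mul_of_nonneg_right _ (by positivity)
        exact pow_le_pow_right₀ (by linarith) (by norm_num)
      linarith) (fun x => enc (weightMatrix x)) hjunta K hK1 hK2
  rw [← hT, ← hN] at hmain
  have e1 : uniformTriPr n r (fun x => K.eval (enc x) = true) =
      (∑ x : Edge n → Fin (2 * r + 1),
        (if K.eval (enc (weightMatrix x)) = true then (1 : ℝ) else 0)) / N := by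
    unfold uniformTriPr
    rw [card_filter_real, hN]
    congr 1
    refine Finset.sum_congr rfl fun x _ => ?_
    beta_reduce
    by_cases hx : K.eval (enc (weightMatrix x)) = true
    · rw [if_pos hx, if_pos hx]
    · rw [if_neg hx, if_neg hx]
  have e2 : plantedTriPr n r (fun x => K.eval (enc x) = true) =
      (∑ a : (Fin 3 ↪ Fin n) × ZeroTriple r, ∑ x : Edge n → Fin (2 * r + 1),
        (if K.eval (enc (weightMatrix (Function.extend (triangleEdge a.1) a.2.1 x))) = true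
          then (1 : ℝ) else 0)) / (T * N) := by
    unfold plantedTriPr
    rw [card_filter_real]
    congr 1
    · rw [Fintype.sum_prod_type, Fintype.sum_prod_type]
      refine Finset.sum_congr rfl fun c _ => ?_
      rw [Fintype.sum_prod_type]
      refine Finset.sum_congr rfl fun z _ => Finset.sum_congr rfl fun x _ => ?_
      unfold plantTriangle
      beta_reduce
      by_cases hx : K.eval (enc (weightMatrix (Function.extend (triangleEdge c) z.1 x))) = true
      · rw [if_pos hx, if_pos hx]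
      · rw [if_neg hx, if_neg hx]
    · rw [hT, hN, Fintype.card_prod, Fintype.card_prod, Fintype.card_prod]
      push_cast
      ring
  obtain ⟨P0, hP0⟩ : ∃ P0 : ℝ, P0 = ∑ x : Edge n → Fin (2 * r + 1),
        (if K.eval (enc (weightMatrix x)) = true then (1 : ℝ) else 0) := ⟨_, rfl⟩
  obtain ⟨P1, hP1⟩ : ∃ P1 : ℝ, P1 = ∑ a : (Fin 3 ↪ Fin n) × ZeroTriple r,
        ∑ x : Edge n → Fin (2 * r + 1),
        (if K.eval (enc (weightMatrix (Function.extend (triangleEdge a.1) a.2.1 x))) = true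
          then (1 : ℝ) else 0) :=
    ⟨_, rfl⟩
  rw [e1, e2, ← hP0, ← hP1]
  have e3 : (∑ a : (Fin 3 ↪ Fin n) × ZeroTriple r, ∑ x : Edge n → Fin (2 * r + 1),
      ((if K.eval (enc (weightMatrix x)) = true then (1 : ℝ) else 0) -
      (if K.eval (enc (weightMatrix (Function.extend (triangleEdge a.1) a.2.1 x))) = true
        then (1 : ℝ) else 0))) = T * P0 - P1 := by
    simp_rw [Finset.sum_sub_distrib]
    rw [← hP0, ← hP1, Finset.sum_const, Finset.card_univ, nsmul_eq_mul, hT]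
  have hmain' : |T * P0 - P1| ≤ (n : ℝ) ^ (-(ε / 2)) * (T * N) := by
    rw [← e3]
    exact hmain
  have e4 : P0 / N - P1 / (T * N) = (T * P0 - P1) / (T * N) := by
    field_simp
  rw [e4, abs_div, abs_of_pos (mul_pos hT0 hN0), div_le_iff₀ (mul_pos hT0 hN0)]
  exact hmain'

end H592R3.Hp
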